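import Mathlib

set_option linter.unusedVariables false

namespace Pool.Agent.Results.MP_dccd56_co.Diverge

open Finset Filter

/-- the set of values of multinomial coefficients with upper entry `n` -/
def M (n : ℕ) : Finset ℕ :=
  (Finset.univ : Finset (Nat.Partition n)).image
    fun p => n.factorial / (p.parts.map Nat.factorial).prod

/-- number of unordered representations -/
def r (n t : ℕ) : ℕ := ((M n ×ˢ M n).filter fun p => p.1 ≤ p.2 ∧ p.1 + p.2 = t).card

/-- all sums of two elements -/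
def sums (n : ℕ) : Finset ℕ := (M n ×ˢ M n).image fun p => p.1 + p.2

/-- collision excess -/
def C (n : ℕ) : ℕ := ∑ t ∈ sums n, (r n t - 1)

/-- number of sums with at least two representations -/
def D (n : ℕ) : ℕ := ((sums n).filter fun t => 2 ≤ r n t).card

lemma mem_M (n : ℕ) (s : Multiset ℕ) (hs : ∀ x ∈ s, 0 < x) (h : s.sum ≤ n) :
    n.factorial / (s.map Nat.factorial).prod ∈ M n := by
  refine mem_image.2 ⟨⟨s + Multiset.replicate (n - s.sum) 1, ?_, ?_⟩, mem_univ _, ?_⟩
  · intro i hi
    rcases Multiset.mem_add.1 hi with h | h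
    · exact hs i h
    · rw [Multiset.eq_of_mem_replicate h]; exact one_pos
  · simp; omega
  · simp

lemma prod_dvd (s : Multiset ℕ) : (s.map Nat.factorial).prod ∣ s.sum.factorial := by
  induction s using Multiset.induction_on with
  | empty => simp
  | cons a s ih =>
    rw [Multiset.map_cons, Multiset.prod_cons, Multiset.sum_cons]
    exact (mul_dvd_mul_left _ ih).trans (Nat.factorial_mul_factorial_dvd_factorial_add _ _)

def base (a b c : ℕ) : Multiset ℕ :=
  Multiset.replicate a 2 + Multiset.replicate b 3 + Multiset.replicate c 5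

def P (a b c : ℕ) : ℕ := 2 ^ a * 6 ^ b * 120 ^ c

lemma base_prod (a b c : ℕ) : ((base a b c).map Nat.factorial).prod = P a b c := by
  simp [base, P, Nat.factorial]

lemma base_sum (a b c : ℕ) : (base a b c).sum = 2 * a + 3 * b + 5 * c := by
  simp [base]; ring

lemma base_pos (a b c : ℕ) : ∀ x ∈ base a b c, 0 < x := by
  intro x hx
  simp only [base, Multiset.mem_add, Multiset.mem_replicate] at hx
  omega

lemma P_inj {a b c a' b' c' : ℕ} (h : P a b c = P a' b' c') : a = a' ∧ b = b' ∧ c = c' := by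
  have e : ∀ a b c, P a b c = 2 ^ (a + b + 3 * c) * 3 ^ (b + c) * 5 ^ c := by
    intro a b c
    rw [P, show (6 : ℕ) = 2 * 3 by norm_num, show (120 : ℕ) = 2 ^ 3 * 3 * 5 by norm_num, mul_pow,
      mul_pow, mul_pow, ← pow_mul, pow_add, pow_add, pow_add]
    ring
  rw [e, e] at h
  have f : ∀ x y z : ℕ, (2 ^ x * 3 ^ y * 5 ^ z).factorization =
      Finsupp.single 2 x + Finsupp.single 3 y + Finsupp.single 5 z := by
    intro x y z
    rw [Nat.factorization_mul (by positivity) (by positivity),
      Nat.factorization_mul (by positivity) (by positivity), Nat.prime_two.factorization_pow,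
      Nat.prime_three.factorization_pow, Nat.prime_five.factorization_pow]
  have h1 := congrArg Nat.factorization h
  rw [f, f] at h1
  have h2 := DFunLike.congr_fun h1 2
  have h3 := DFunLike.congr_fun h1 3
  have h5 := DFunLike.congr_fun h1 5
  simp at h2 h3 h5
  omega

lemma key (n a b c : ℕ) (h : 2 * a + 3 * b + 5 * c + 5 ≤ n) :
    ∃ m, 0 < m ∧ n.factorial = 12 * P a b c * m ∧ m ∈ M n ∧ 2 * m ∈ M n ∧ 3 * m ∈ M n := by
  have hP : 0 < P a b c := by unfold P; positivity
  have e1 : P (a + 1) (b + 1) c = 12 * P a b c := by unfold P; ring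
  have e2 : P a (b + 1) c = 6 * P a b c := by unfold P; ring
  have e3 : P (a + 2) b c = 4 * P a b c := by unfold P; ring
  have hd : 12 * P a b c ∣ n.factorial := by
    rw [← e1, ← base_prod]
    exact (prod_dvd _).trans (Nat.factorial_dvd_factorial (by rw [base_sum]; omega))
  obtain ⟨m, hm⟩ := hd
  have m1 := mem_M n _ (base_pos (a + 1) (b + 1) c) (by rw [base_sum]; omega)
  have m2 := mem_M n _ (base_pos a (b + 1) c) (by rw [base_sum]; omega)
  have m3 := mem_M n _ (base_pos (a + 2) b c) (by rw [base_sum]; omega)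
  rw [base_prod, e1, Nat.div_eq_of_eq_mul_right (by omega) hm] at m1
  rw [base_prod, e2, Nat.div_eq_of_eq_mul_right (k := 2 * m) (by omega) (by rw [hm]; ring)] at m2
  rw [base_prod, e3, Nat.div_eq_of_eq_mul_right (k := 3 * m) (by omega) (by rw [hm]; ring)] at m3
  refine ⟨m, Nat.pos_of_ne_zero ?_, hm, m1, m2, m3⟩
  rintro rfl
  exact absurd hm (by simpa using n.factorial_ne_zero)

lemma D_ge (n K : ℕ) (h : 10 * K + 5 ≤ n) : K ^ 3 ≤ D n := by
  have : K ^ 3 = (range K ×ˢ range K ×ˢ range K).card := by simp; ring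
  rw [this, D]
  refine card_le_card_of_injOn (fun x => 4 * (n.factorial / (12 * P x.1 x.2.1 x.2.2))) ?_ ?_
  · rintro ⟨a, b, c⟩ hx
    simp only [coe_product, Set.mem_prod, mem_coe, mem_range] at hx
    obtain ⟨m, h0, hm, m1, m2, m3⟩ := key n a b c (by omega)
    have hP : 0 < P a b c := by unfold P; positivity
    simp only [mem_coe, mem_filter]
    rw [Nat.div_eq_of_eq_mul_right (by omega) hm]
    refine ⟨mem_image.2 ⟨(m, 3 * m), mem_product.2 ⟨m1, m3⟩, by ring⟩, ?_⟩
    refine one_lt_card.2 ⟨(m, 3 * m), mem_filter.2 ⟨mem_product.2 ⟨m1, m3⟩, by omega, by ring⟩,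
      (2 * m, 2 * m), mem_filter.2 ⟨mem_product.2 ⟨m2, m2⟩, le_rfl, by ring⟩, ?_⟩
    simp; omega
  · rintro ⟨a, b, c⟩ hx ⟨a', b', c'⟩ hy he
    simp only [coe_product, Set.mem_prod, mem_coe, mem_range] at hx hy
    obtain ⟨m, h0, hm, -⟩ := key n a b c (by omega)
    obtain ⟨m', h0', hm', -⟩ := key n a' b' c' (by omega)
    have hP : 0 < P a b c := by unfold P; positivity
    have hP' : 0 < P a' b' c' := by unfold P; positivity
    simp only at he
    rw [Nat.div_eq_of_eq_mul_right (by omega) hm, Nat.div_eq_of_eq_mul_right (by omega) hm'] at he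
    have hmm : m = m' := by omega
    subst hmm
    have := Nat.eq_of_mul_eq_mul_right h0 (hm.symm.trans hm')
    obtain ⟨rfl, rfl, rfl⟩ := P_inj (show P a b c = P a' b' c' by omega)
    rfl

lemma D_le_C (n : ℕ) : D n ≤ C n := by
  rw [D, C, card_filter]
  refine sum_le_sum fun t _ => ?_
  split_ifs <;> omega

lemma tendsto_D : Tendsto (fun n : ℕ => (D n : ℝ) / ((n : ℝ) ^ 2 * Real.log n)) atTop atTop := by
  have h1 : Tendsto (fun n : ℕ => Real.sqrt n / 16000) atTop atTop :=
    (Real.tendsto_sqrt_atTop.comp tendsto_natCast_atTop_atTop).atTop_div_const (by norm_num)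
  refine tendsto_atTop_mono' _ ?_ h1
  filter_upwards [eventually_ge_atTop 30] with n hn
  have hn' : (30 : ℝ) ≤ n := by exact_mod_cast hn
  have hD := D_ge n ((n - 5) / 10) (by omega)
  have hK : n ≤ 20 * ((n - 5) / 10) := by omega
  have hD' : (((n - 5) / 10 : ℕ) : ℝ) ^ 3 ≤ D n := by exact_mod_cast hD
  have hK' : (n : ℝ) / 20 ≤ ((n - 5) / 10 : ℕ) := by
    rw [div_le_iff₀ (by norm_num), mul_comm]; exact_mod_cast hK
  have h3 : ((n : ℝ) / 20) ^ 3 ≤ D n := le_trans (by gcongr) hD'
  have hlog : 0 < Real.log n := Real.log_pos (by linarith)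
  have hs : 0 < Real.sqrt n := Real.sqrt_pos.2 (by linarith)
  have hl : Real.log n ≤ 2 * Real.sqrt n := by
    have := Real.log_le_sub_one_of_pos hs
    rw [Real.log_sqrt (by linarith)] at this
    linarith
  rw [le_div_iff₀ (by positivity)]
  refine le_trans ?_ h3
  have hss : Real.sqrt n * Real.sqrt n = n := Real.mul_self_sqrt (by linarith)
  calc Real.sqrt n / 16000 * ((n : ℝ) ^ 2 * Real.log n)
      ≤ Real.sqrt n / 16000 * ((n : ℝ) ^ 2 * (2 * Real.sqrt n)) := by gcongr
    _ = (Real.sqrt n * Real.sqrt n) * (n : ℝ) ^ 2 / 8000 := by ring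
    _ = _ := by rw [hss]; ring

theorem result :
    Tendsto (fun n : ℕ => (C n : ℝ) / ((n : ℝ) ^ 2 * Real.log n)) atTop atTop ∧
    Tendsto (fun n : ℕ => (D n : ℝ) / ((n : ℝ) ^ ((3 : ℝ) / 2) * Real.sqrt (Real.log n)))
      atTop atTop := by
  constructor
  · refine tendsto_atTop_mono' _ ?_ tendsto_D
    filter_upwards [eventually_ge_atTop 3] with n hn
    have hn' : (3 : ℝ) ≤ n := by exact_mod_cast hn
    have hlog : 0 < Real.log n := Real.log_pos (by linarith)
    have : (D n : ℝ) ≤ C n := by exact_mod_cast D_le_C n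
    gcongr
  · refine tendsto_atTop_mono' _ ?_ tendsto_D
    filter_upwards [eventually_ge_atTop 3] with n hn
    have hn' : (3 : ℝ) ≤ n := by exact_mod_cast hn
    have hlog : 1 ≤ Real.log n := by
      rw [Real.le_log_iff_exp_le (by linarith)]
      exact (Real.exp_one_lt_d9.le.trans (by norm_num)).trans hn'
    have h1 : (n : ℝ) ^ ((3 : ℝ) / 2) ≤ (n : ℝ) ^ 2 := by
      rw [← Real.rpow_two]
      exact Real.rpow_le_rpow_of_exponent_le (by linarith) (by norm_num)
    have h2 : Real.sqrt (Real.log n) ≤ Real.log n := by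
      rw [Real.sqrt_le_left (by linarith)]; nlinarith
    have h3 : 0 < Real.sqrt (Real.log n) := Real.sqrt_pos.2 (by linarith)
    gcongr

end Pool.Agent.Results.MP_dccd56_co.Diverge
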